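import Mathlib
import Pool.Agent.Results.MP_a0d2f7_nt.MahlerOne

/-!
The `*`-type of real numbers whose Mahler exponent `w` equals `1`, or is close to `1`.
-/

set_option autoImplicit false

open Polynomial Filter

namespace Pool.Agent.Results.MP_3c862c_nt.TypeOne

open Pool.Agent.Results.MP_a0d2f7_nt.MahlerOne

/-- The `*`-type of `ξ`: `limsup (w_n^*(ξ) + 1) / (n + 1)`. -/
noncomputable def starType (ξ : ℝ) : ENNReal :=
  limsup (fun n : ℕ => (wnStar n ξ + 1) / ((n : ENNReal) + 1)) atTop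

theorem starType_ge (ξ : ℝ) (hξ : Transcendental ℤ ξ) (e : ℝ) (he : 0 < e) (he1 : e ≤ 1)
    (h : w ξ < ENNReal.ofReal (1 + (e / 40) ^ 2)) : ENNReal.ofReal (1 - e) ≤ starType ξ := by
  have hyp := finite_of_lt ξ ((e / 40) ^ 2) (by positivity) h
  refine le_limsup_of_frequently_le ?_
  rw [frequently_atTop]
  intro N0
  obtain ⟨n, hn, hinf⟩ := Pool.Agent.H118W.part_b' ξ hξ e he he1 hyp N0
  refine ⟨n, hn, ?_⟩
  have h1 : ENNReal.ofReal (1 - e) * n ≤ wnStar n ξ := by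
    rw [← ENNReal.ofReal_natCast n, ← ENNReal.ofReal_mul (by linarith)]
    refine le_iSup₂_of_le ((1 - e) * n) ⟨mul_nonneg (by linarith) (Nat.cast_nonneg n), ?_⟩ le_rfl
    refine hinf.mono ?_
    rintro α ⟨Q, h1, h2, h3, h4, h5⟩
    refine ⟨Q, h1, h2, h3, abs_pos.2 (sub_ne_zero.2 (Ne.symm h4)), ?_⟩
    have h6 : -((1 - e) * (n : ℝ)) - 1 = -((1 - e) * (n : ℝ) + 1) := by ring
    rw [h6]
    exact h5
  have h2 : ENNReal.ofReal (1 - e) ≤ 1 := by
    rw [← ENNReal.ofReal_one]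
    exact ENNReal.ofReal_le_ofReal (by linarith)
  have hn0 : (n : ENNReal) + 1 ≠ 0 := by simp
  have hn1 : (n : ENNReal) + 1 ≠ ⊤ := by simp
  rw [ENNReal.le_div_iff_mul_le (Or.inl hn0) (Or.inl hn1), mul_add, mul_one]
  exact add_le_add h1 h2

/-- Let `ξ` be a transcendental real number.
(1) If `w(ξ) = 1` then the `*`-type of `ξ` is at least `1`.
(2) If `0 < e ≤ 1` and `w(ξ) < 1 + (e/40)²` then the `*`-type of `ξ` is at least `1 - e`. -/
theorem result (ξ : ℝ) (hξ : Transcendental ℤ ξ) :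
    (w ξ = 1 → 1 ≤ starType ξ) ∧
    (∀ e : ℝ, 0 < e → e ≤ 1 → w ξ < ENNReal.ofReal (1 + (e / 40) ^ 2) →
      ENNReal.ofReal (1 - e) ≤ starType ξ) := by
  refine ⟨fun h => ?_, fun e he he1 h => starType_ge ξ hξ e he he1 h⟩
  refine ENNReal.le_of_forall_pos_le_add fun ε hε _ => ?_
  have hεR : (0 : ℝ) < (ε : ℝ) := hε
  have he : (0 : ℝ) < min (ε : ℝ) 1 := lt_min hεR one_pos
  have h1 : ENNReal.ofReal (1 - min (ε : ℝ) 1) ≤ starType ξ := by
    refine starType_ge ξ hξ _ he (min_le_right _ _) ?_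
    rw [h, ← ENNReal.ofReal_one, ENNReal.ofReal_lt_ofReal_iff (by positivity)]
    have : 0 < (min (ε : ℝ) 1 / 40) ^ 2 := by positivity
    linarith
  calc (1 : ENNReal) = ENNReal.ofReal (1 - min (ε : ℝ) 1) + ENNReal.ofReal (min (ε : ℝ) 1) := by
        rw [← ENNReal.ofReal_add (by linarith [min_le_right (ε : ℝ) 1]) he.le, sub_add_cancel,
          ENNReal.ofReal_one]
    _ ≤ starType ξ + ε := by
        refine add_le_add h1 ?_
        rw [← ENNReal.ofReal_coe_nnreal]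
        exact ENNReal.ofReal_le_ofReal (min_le_left _ _)

end Pool.Agent.Results.MP_3c862c_nt.TypeOne
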